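import Pool.Agent.Y152.VR.Defs
import Pool.Agent.Y152.VC.Main

/-!
# Alternating sums of zero-cycles on a finite-dimensional piece of a surface
-/

open CategoryTheory AlgebraicGeometry

universe u v w

namespace Pool.Agent.Y152.VR

open Pool.Agent.H914 Pool.Agent.H914.VarClass Pool.Agent.H914.VarClass.Obj Pool.Agent.W492.BB
  Pool.Agent.W550.Corr Pool.Agent.TH133 Pool.Agent.Y152.AS Pool.Agent.Y110 Pool.Agent.TH829.Kim

set_option linter.unusedSectionVars false

variable {k : Type u} [Field k] {𝒱 : VarClass k} {C : TheoryData.{u, v, 0} 𝒱 ℚ}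
  [hC : IsChowProj C] {S P W V : 𝒱.Obj}

/-- The tuple `(z_1, ..., z_m, x_1, ..., x_n)`. -/
def extT {n : ℕ} : ∀ {m : ℕ}, (Fin m → (W ⟶ S)) → (Fin n → (W ⟶ S)) → (Fin (n + m) → (W ⟶ S))
  | 0, _, x => x
  | _ + 1, z, x => Fin.cons (z 0) (extT (fun i => z i.succ) x)

lemma extT_comp {n m : ℕ} (f : V ⟶ W) (z : Fin m → (W ⟶ S)) (x : Fin n → (W ⟶ S)) :
    extT (fun i => f ≫ z i) (fun i => f ≫ x i) = fun i => f ≫ extT z x i := by
  induction m with
  | zero => rfl
  | succ m ih =>
    funext i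
    refine Fin.cases rfl (fun i => ?_) i
    change extT (fun i => f ≫ z i.succ) (fun i => f ≫ x i) i = f ≫ extT (fun i => z i.succ) x i
    rw [ih]

lemma exists_idx {n : ℕ} (m : ℕ) (i : Fin n) : ∃ j : Fin (n + m),
    ∀ (W : 𝒱.Obj) (z : Fin m → (W ⟶ S)) (x : Fin n → (W ⟶ S)), extT z x j = x i := by
  induction m with
  | zero => exact ⟨i, fun _ _ _ => rfl⟩
  | succ m ih =>
    obtain ⟨j, hj⟩ := ih
    exact ⟨j.succ, fun W z x => hj W (fun i => z i.succ) x⟩

lemma gr_cast {i j : ℤ} (h : i = j) {a : C.A W} (ha : a ∈ C.gr W i) : a ∈ C.gr W j := h ▸ ha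

/-- The product `∏_i x_i^* a_i`. -/
noncomputable def wt' {n : ℕ} (a : Fin n → C.A S) (x : Fin n → (W ⟶ S)) : C.A W :=
  ∏ i, C.pull (x i) (a i)

lemma pull_wt' {n : ℕ} (a : Fin n → C.A S) (f : V ⟶ W) (x : Fin n → (W ⟶ S)) :
    C.pull f (wt' a x) = wt' a (fun i => f ≫ x i) := by
  rw [wt', wt', map_prod]
  exact Finset.prod_congr rfl fun i _ => (C.pull_comp f (x i) (a i)).symm

/-- The determinant with all entries `p`. -/
noncomputable def dt (p : C.A (S.prod S)) {n : ℕ} (x y : Fin n → (W ⟶ S)) : C.A W :=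
  gr true (fun _ => p) x y

section contraction

variable {p : C.A (S.prod S)} (hpp : C.comp p p = p) {b : ℕ}
  (hr : HasDegree C (ev p (𝟙 S) (𝟙 S)) b)
include hpp hr

lemma push_dt {n : ℕ} (x y : Fin n → (W ⟶ S)) :
    C.push (fst W S) (dt p (Fin.cons (snd W S) (fun i => fst W S ≫ x i))
      (Fin.cons (snd W S) (fun i => fst W S ≫ y i))) = ((b : ℚ) - n) • dt p x y := by
  rw [dt, push_gr true (fun _ => p) x y hr]
  have h1 : ∀ i : Fin n, gr true (Function.update (fun _ : Fin n => p) i (C.comp p p)) x y =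
      dt p x y := by
    intro i
    rw [hpp, Function.update_eq_self_iff.2 rfl]
    rfl
  rw [Finset.sum_congr rfl fun i _ => h1 i, Finset.sum_const, Finset.card_univ, Fintype.card_fin,
    ← Nat.cast_smul_eq_nsmul ℚ, smul_smul, sub_smul]
  have h2 : eta true = -1 := rfl
  rw [h2, neg_one_mul, neg_smul, ← sub_eq_add_neg]
  rfl

/-- The contraction of one common variable. -/
lemma contract {n j : ℕ} (hj : n + j < b) (a : Fin n → C.A S)
    (h : ∀ (W : 𝒱.Obj) (x' x : Fin n → (W ⟶ S)) (z : Fin (j + 1) → (W ⟶ S)),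
      dt p (extT z x') (extT z x) * wt' a x = 0)
    (x' x : Fin n → (W ⟶ S)) (z : Fin j → (W ⟶ S)) :
    dt p (extT z x') (extT z x) * wt' a x = 0 := by
  have h1 := h (W.prod S) (fun i => fst W S ≫ x' i) (fun i => fst W S ≫ x i)
    (Fin.cons (snd W S) (fun i => fst W S ≫ z i))
  have e : ∀ x : Fin n → (W ⟶ S), extT (m := j + 1) (Fin.cons (snd W S) (fun i => fst W S ≫ z i))
      (fun i => fst W S ≫ x i) =
      (Fin.cons (snd W S) (fun i => fst W S ≫ extT z x i) : Fin (n + j + 1) → _) := fun x =>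
    congrArg (fun t => (Fin.cons (snd W S) t : Fin (n + j + 1) → (W.prod S ⟶ S)))
      (extT_comp (fst W S) z x)
  rw [e, e, ← pull_wt'] at h1
  have h2 := congrArg (C.push (fst W S)) h1
  rw [map_zero, C.proj_right] at h2
  have h3 := push_dt (W := W) hpp hr (extT z x') (extT z x)
  have h5 : (((b : ℚ) - (n + j : ℕ)) • dt p (extT z x') (extT z x)) * wt' a x = 0 := by
    rw [← h3]; exact h2
  rw [smul_mul_assoc] at h5
  refine (smul_eq_zero.1 h5).resolve_left ?_
  have h4 : ((n + j : ℕ) : ℚ) < (b : ℚ) := by exact_mod_cast hj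
  linarith

end contraction

/-! ### Iterated integrals -/

/-- Families of functions of `n` points over `W`. -/
abbrev FG (C : TheoryData.{u, v, 0} 𝒱 ℚ) (S : 𝒱.Obj) (n : ℕ) (W : 𝒱.Obj) : Type _ :=
  ∀ V : 𝒱.Obj, (V ⟶ W) → (Fin n → (V ⟶ S)) → C.A V

/-- The integral over the `n` points. -/
noncomputable def Int : ∀ (n : ℕ) (W : 𝒱.Obj), FG C S n W →ₗ[ℚ] C.A W
  | 0, W => { toFun := fun G => G W (𝟙 W) Fin.elim0
              map_add' := fun _ _ => rfl
              map_smul' := fun _ _ => rfl }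
  | n + 1, W => { toFun := fun G => C.push (fst W S) (Int n (W.prod S)
                    (fun V f x => G V (f ≫ fst W S) (Fin.cons (f ≫ snd W S) x)))
                  map_add' := fun G G' => by
                    rw [← map_add, ← map_add]
                    rfl
                  map_smul' := fun c G => by
                    rw [RingHom.id_apply, ← map_smul, ← map_smul]
                    rfl }

lemma int_succ {n : ℕ} (G : FG C S (n + 1) W) : Int (n + 1) W G = C.push (fst W S)
    (Int n (W.prod S) (fun V f x => G V (f ≫ fst W S) (Fin.cons (f ≫ snd W S) x))) := rfl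

lemma int_mul (n : ℕ) : ∀ (W : 𝒱.Obj) (u : C.A W) (G : FG C S n W),
    Int n W (fun V f x => C.pull f u * G V f x) = u * Int n W G := by
  induction n with
  | zero =>
    intro W u G
    change C.pull (𝟙 W) u * G W (𝟙 W) Fin.elim0 = _
    rw [C.pull_id]
    rfl
  | succ n ih =>
    intro W u G
    rw [int_succ, int_succ]
    have h1 := ih (W.prod S) (C.pull (fst W S) u)
      (fun V f x => G V (f ≫ fst W S) (Fin.cons (f ≫ snd W S) x))
    rw [← C.proj_left, ← h1]
    congr 2
    funext V f x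
    rw [C.pull_comp]

/-- The integral of `p(y, x) a(x)`. -/
lemma int_one {p : C.A (S.prod S)} (hs : tp C p = p) {a : C.A S} (ha : C.act p a = a)
    (y : W ⟶ S) : C.push (fst W S) (ev p (fst W S ≫ y) (snd W S) * C.pull (snd W S) a) =
      C.pull y a := by
  have h1 : C.push (fst S S) (p * C.pull (snd S S) a) = a := by
    have e1 : C.act p a = C.push (snd S S) (p * C.pull (fst S S) a) := rfl
    rw [e1] at ha
    nth_rw 1 [← hs] at ha
    have e2 : tp C p * C.pull (fst S S) a = C.pull (sw S S) (p * C.pull (snd S S) a) := by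
      rw [tp, map_mul, ← C.pull_comp]
      congr 2
      simp [sw]
    rw [e2, pull_iso C (sw S S) (sw S S) sw_sw sw_sw, ← C.push_comp] at ha
    have e3 : sw S S ≫ snd S S = fst S S := by simp [sw]
    rwa [e3] at ha
  have h2 := base_pull (C := C) y (p * C.pull (snd S S) a)
  rw [h1] at h2
  have e4 : C.pull (prodMap y (𝟙 S)) p = ev p (fst W S ≫ y) (snd W S) := by
    rw [ev]
    rfl
  have e5 : prodMap y (𝟙 S) ≫ snd S S = snd W S := by simp
  rw [h2, map_mul (C.pull (prodMap y (𝟙 S))), ← C.pull_comp, e4, e5]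

lemma int_prod {p : C.A (S.prod S)} (hs : tp C p = p) (n : ℕ) :
    ∀ (W : 𝒱.Obj) (a : Fin n → C.A S) (_ : ∀ j, C.act p (a j) = a j) (y : Fin n → (W ⟶ S)),
    Int n W (fun _ f x => ∏ j, (ev p (f ≫ y j) (x j) * C.pull (x j) (a j))) =
      ∏ j, C.pull (y j) (a j) := by
  induction n with
  | zero =>
    intro W a _ y
    rw [Fin.prod_univ_zero]
    exact Fin.prod_univ_zero (fun j : Fin 0 =>
      (ev p (𝟙 W ≫ y j) (Fin.elim0 j) * C.pull (Fin.elim0 j : W ⟶ S) (a j) : C.A W))
  | succ n ih =>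
    intro W a ha y
    rw [int_succ]
    have h1 : (fun (V : 𝒱.Obj) (f : V ⟶ W.prod S) (x : Fin n → (V ⟶ S)) =>
        ∏ j, (ev p ((f ≫ fst W S) ≫ y j) ((Fin.cons (f ≫ snd W S) x : Fin (n + 1) → (V ⟶ S)) j) *
          C.pull ((Fin.cons (f ≫ snd W S) x : Fin (n + 1) → (V ⟶ S)) j) (a j))) =
        (fun V f x => C.pull f (ev p (fst W S ≫ y 0) (snd W S) * C.pull (snd W S) (a 0)) *
          ∏ j : Fin n, (ev p (f ≫ (fst W S ≫ y j.succ)) (x j) * C.pull (x j) (a j.succ))) := by
      funext V f x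
      rw [Fin.prod_univ_succ, map_mul, pull_ev, ← C.pull_comp, ← Category.assoc]
      congr 1
    rw [h1, int_mul, ih (W.prod S) (fun j => a j.succ) (fun j => ha j.succ)
      (fun j => fst W S ≫ y j.succ)]
    have h2 : ∏ j : Fin n, C.pull (fst W S ≫ y j.succ) (a j.succ) =
        C.pull (fst W S) (∏ j : Fin n, C.pull (y j.succ) (a j.succ)) := by
      rw [map_prod]
      exact Finset.prod_congr rfl fun j _ => C.pull_comp _ _ _
    rw [h2, C.proj_right, int_one hs (ha 0), Fin.prod_univ_succ]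

/-- The vanishing of alternating sums on a piece. -/
theorem core {p : C.A (S.prod S)} {n m : ℕ} (hmn : m < n) {pr : Fin (n + m) → (P ⟶ S)}
    (hP : IsPow pr) (hd : P.dim = 2 * (n + m)) (hs : tp C p = p) (hpp : C.comp p p = p)
    (hr : HasDegree C (ev p (𝟙 S) (𝟙 S)) ((n + m : ℕ) : ℚ)) {D : C.A P}
    (hD : D ∈ C.gr P (n + m : ℕ)) {c : ℚ} (hc : c ≠ 0)
    (hdet : ∀ (W : 𝒱.Obj) (g h : W ⟶ P), C.pull g D * C.pull h D =
      c • dt p (fun i => g ≫ pr i) (fun i => h ≫ pr i))
    (a : Fin n → C.A S) (ha2 : ∀ j, a j ∈ C.gr S 2) (ha : ∀ j, C.act p (a j) = a j)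
    (y : Fin n → (W ⟶ S)) :
    ∑ σ : Equiv.Perm (Fin n), (Equiv.Perm.sign σ : ℤ) • ∏ j, C.pull (y (σ j)) (a j) = 0 := by
  -- all common variables
  have K0 : ∀ (W : 𝒱.Obj) (x' x : Fin n → (W ⟶ S)) (z : Fin m → (W ⟶ S)),
      dt p (extT z x') (extT z x) * wt' a x = 0 := by
    intro W x' x z
    obtain ⟨g', hg'⟩ := hP.exists_lift W (extT z x')
    obtain ⟨g, hg⟩ := hP.exists_lift W (extT z x)
    have h1 := hdet W g' g
    simp only [hg', hg] at h1
    have h2 : C.pull g D * wt' a x = 0 := by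
      choose idx hidx using fun i => exists_idx (𝒱 := 𝒱) (S := S) (n := n) m i
      have h3 : wt' a x = C.pull g (wt' a fun i => pr (idx i)) := by
        rw [pull_wt']
        congr 1
        funext i
        rw [hg, hidx]
      have h4 : wt' a (fun i => pr (idx i)) ∈ C.gr P (2 * n : ℕ) := by
        have h5 : ∀ s : Finset (Fin n), ∏ i ∈ s, C.pull (pr (idx i)) (a i) ∈
            C.gr P (2 * s.card : ℕ) := by
          intro s
          induction s using Finset.induction_on with
          | empty =>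
            rw [Finset.prod_empty, Finset.card_empty]
            exact C.one_mem P
          | insert i s hi ih =>
            rw [Finset.prod_insert hi, Finset.card_insert_of_notMem hi]
            have := C.mul_mem (C.pull_mem (pr (idx i)) (ha2 i)) ih
            refine gr_cast ?_ this
            push_cast; ring
        have h6 := h5 Finset.univ
        rwa [Finset.card_univ, Fintype.card_fin] at h6
      rw [h3, ← map_mul, hC.gr_top P _ _ (C.mul_mem hD h4) (by rw [hd]; push_cast; omega), map_zero]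
    have h3 : c • (dt p (extT z x') (extT z x) * wt' a x) = 0 := by
      rw [← smul_mul_assoc, ← h1, mul_assoc, h2, mul_zero]
    exact (smul_eq_zero.1 h3).resolve_left hc
  -- contraction
  have K : ∀ (t j : ℕ), j + t = m → ∀ (W : 𝒱.Obj) (x' x : Fin n → (W ⟶ S))
      (z : Fin j → (W ⟶ S)), dt p (extT z x') (extT z x) * wt' a x = 0 := by
    intro t
    induction t with
    | zero =>
      intro j hj
      rw [add_zero] at hj
      subst hj
      exact K0
    | succ t ih =>
      intro j hj W x' x z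
      exact contract hpp hr (by omega) a (ih (j + 1) (by omega)) x' x z
  have K1 : ∀ (W : 𝒱.Obj) (x' x : Fin n → (W ⟶ S)), dt p x' x * wt' a x = 0 := fun W x' x =>
    K m 0 (by omega) W x' x Fin.elim0
  -- integration
  let G : Equiv.Perm (Fin n) → FG C S n W := fun σ _ f x =>
    ∏ j, (ev p (f ≫ y (σ j)) (x j) * C.pull (x j) (a j))
  have h1 : ∑ σ : Equiv.Perm (Fin n), ((Equiv.Perm.sign σ : ℤ) : ℚ) • G σ = 0 := by
    funext V f x
    rw [Finset.sum_apply, Finset.sum_apply, Finset.sum_apply]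
    have h2 := K1 V (fun i => f ≫ y i) x
    rw [dt, gr, gd, Finset.sum_mul] at h2
    rw [Pi.zero_apply, Pi.zero_apply, Pi.zero_apply, ← h2]
    refine Fintype.sum_equiv (Equiv.inv _) _ _ fun σ => ?_
    rw [Equiv.inv_apply]
    change ((Equiv.Perm.sign σ : ℤ) : ℚ) • G σ V f x = _
    rw [Int.cast_smul_eq_zsmul, smul_mul_assoc]
    have h3 : wt true σ⁻¹ = (Equiv.Perm.sign σ : ℤ) := by
      rw [wt, if_pos rfl, Equiv.Perm.sign_inv]
    rw [h3]
    congr 1
    simp only [G, wt']
    rw [Finset.prod_mul_distrib]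
    congr 1
    refine Fintype.prod_equiv σ _ _ fun j => ?_
    rw [show σ⁻¹ (σ j) = j from σ.symm_apply_apply j]
  have h2 := congrArg (Int n W) h1
  rw [map_sum, map_zero] at h2
  rw [← h2]
  refine Finset.sum_congr rfl fun σ _ => ?_
  rw [map_smul, Int.cast_smul_eq_zsmul]
  congr 1
  exact (int_prod hs n W a ha (fun j => y (σ j))).symm

end Pool.Agent.Y152.VR
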