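import Pool.Agent.Y152.VC.Defs

/-!
# Finite-dimensional pieces of the transcendental motive of a surface: definitions
-/

open CategoryTheory AlgebraicGeometry

universe u v w

namespace Pool.Agent.Y152.VR

open Pool.Agent.H914 Pool.Agent.H914.VarClass Pool.Agent.H914.VarClass.Obj Pool.Agent.W492.BB
  Pool.Agent.W550.Corr Pool.Agent.TH133 Pool.Agent.Y152.AS Pool.Agent.Y110

variable {k : Type u} [Field k] {𝒱 : VarClass k} (C : TheoryData.{u, v, 0} 𝒱 ℚ)

/-- The determinant `∑_σ sgn(σ) ∏_i p(x_i, y_{σ(i)})` on `P × P`, where `P = S^b` has the projections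
`pr_i`, and `x_i = pr_i`, `y_j = pr_j` are the coordinates on the two factors. -/
noncomputable def detProd {S P : 𝒱.Obj} {b : ℕ} (p : C.A (S.prod S)) (pr : Fin b → (P ⟶ S)) :
    C.A (P.prod P) := ∑ σ : Equiv.Perm (Fin b), ((Equiv.Perm.sign σ : ℤˣ) : ℤ) •
      (List.ofFn fun i => C.up (Obj.lift (fst P P ≫ pr i) (snd P P ≫ pr (σ i))) p).prod

/-- A direct summand `M = (S, p)` of the motive of the surface `S`, `p` a symmetric idempotent
correspondence, which is evenly finite-dimensional of rank `b > 0` with algebraic determinant: there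
is a class `D ∈ CH^b(S^b)_ℚ` such that `D × D` is a non-zero multiple of the antisymmetrization
`det(p(x_i, y_j))` of `p × ... × p`. (This says that `Λ^b M` is the `b`-th power of the Lefschetz
motive.) -/
structure FinitePiece (S : 𝒱.Obj) where
  /-- the correspondence `p` -/
  p : C.A (S.prod S)
  /-- the rank `b` -/
  b : ℕ
  /-- the power `P = S^b` -/
  P : 𝒱.Obj
  /-- the projections -/
  pr : Fin b → (P ⟶ S)
  /-- the class `D` -/
  D : C.A P
  pos : 0 < b
  isPow : IsPow pr
  dim_eq : P.dim = 2 * b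
  deg_p : C.Deg 2 p
  symm : tp C p = p
  idem : C.comp p p = p
  rank : HasDegree C (C.up (Obj.lift (𝟙 S) (𝟙 S)) p) b
  deg_D : C.Deg b D
  det : ∃ c : ℚ, c ≠ 0 ∧ C.mul (C.up (fst P P) D) (C.up (snd P P) D) = c • detProd C p pr

/-- The Albanese kernel of `S` is the sum of the Albanese kernels of the pieces `M_i = (S, p_i)`:
`a = ∑_i p_{i*} a` for all `a`. -/
def IsSumOfPieces {S : 𝒱.Obj} {r : ℕ} (M : Fin r → FinitePiece C S) : Prop :=
  ∀ a : C.A S, InAlbKer C a → a = ∑ i, C.act (M i).p a

end Pool.Agent.Y152.VR
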