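import Pool.Agent.Y152.VR.Core

/-!
# Alternating sums of zero-cycles on sums of finite-dimensional pieces
-/

open CategoryTheory AlgebraicGeometry

universe u v w

namespace Pool.Agent.Y152.VR

open Pool.Agent.H914 Pool.Agent.H914.VarClass Pool.Agent.H914.VarClass.Obj Pool.Agent.W492.BB
  Pool.Agent.W550.Corr Pool.Agent.TH133 Pool.Agent.Y152.AS Pool.Agent.Y110 Pool.Agent.TH829.Kim
  Pool.Agent.Y152.VC

set_option linter.unusedSectionVars false

variable {k : Type u} [Field k] {𝒱 : VarClass k} {C : TheoryData.{u, v, 0} 𝒱 ℚ}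
  [hC : IsChowProj C] {S P W V : 𝒱.Obj}

/-- The alternating sum with rows and columns exchanged. -/
lemma altProd_eq' {n : ℕ} (q : Fin n → (W ⟶ S)) (a : Fin n → C.A S) :
    altProd C q a = ∑ σ : Equiv.Perm (Fin n), (Equiv.Perm.sign σ : ℤ) •
      ∏ i, C.pull (q (σ i)) (a i) := by
  rw [altProd]
  refine Fintype.sum_equiv (Equiv.inv _) _ _ fun σ => ?_
  rw [Equiv.inv_apply, Equiv.Perm.sign_inv]
  congr 1
  have h1 : extProd C q (fun j => a (σ j)) = ∏ j, C.pull (q j) (a (σ j)) := List.prod_ofFn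
  rw [h1]
  refine Fintype.prod_equiv σ _ _ fun j => ?_
  rw [show σ⁻¹ (σ j) = j from σ.symm_apply_apply j]

/-- The alternating sum vanishes if it vanishes for the classes in a subset. -/
lemma alt_subset {n : ℕ} (I : Finset (Fin n)) (q : Fin n → (W ⟶ S)) (c : Fin n → C.A S)
    (h : ∀ x : {i // i ∈ I} → (W ⟶ S), ∑ τ : Equiv.Perm {i // i ∈ I},
      (Equiv.Perm.sign τ : ℤ) • ∏ i, C.pull (x (τ i)) (c i) = 0) : altProd C q c = 0 := by
  classical
  rw [altProd_eq']
  let F : Equiv.Perm (Fin n) → C.A W := fun σ => (Equiv.Perm.sign σ : ℤ) •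
    ∏ i, C.pull (q (σ i)) (c i)
  have h1 : ∀ σ : Equiv.Perm (Fin n), ∑ τ ∈ Pm.SymOn I, F (σ * τ) = 0 := by
    intro σ
    have h2 : ∀ τ ∈ Pm.SymOn I, F (σ * τ) = (Equiv.Perm.sign σ : ℤ) •
        (((Equiv.Perm.sign τ : ℤ) • ∏ i ∈ I, C.pull (q (σ (τ i))) (c i)) *
          ∏ i ∈ Finset.univ \ I, C.pull (q (σ i)) (c i)) := by
      intro τ hτ
      have h3 := prod_split (fun i (x : W ⟶ S) => C.pull x (c i)) (Finset.subset_univ I)
        (fun i => q (σ i)) hτ
      simp only [F, Equiv.Perm.sign_mul, Units.val_mul]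
      rw [mul_smul, smul_mul_assoc]
      congr 2
    rw [Finset.sum_congr rfl h2, ← Finset.smul_sum, ← Finset.sum_mul, sum_symOn_eq]
    have h4 : ∑ τ : Equiv.Perm {i // i ∈ I}, (Equiv.Perm.sign (Equiv.Perm.ofSubtype τ) : ℤ) •
        ∏ i ∈ I, C.pull (q (σ (Equiv.Perm.ofSubtype τ i))) (c i) = 0 := by
      rw [← h (fun i => q (σ i))]
      refine Finset.sum_congr rfl fun τ _ => ?_
      rw [Equiv.Perm.sign_ofSubtype]
      congr 1
      rw [← Finset.prod_coe_sort I]
      refine Finset.prod_congr rfl fun j _ => ?_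
      rw [Equiv.Perm.ofSubtype_apply_coe]
    rw [h4, zero_mul, smul_zero]
  have h2 : ∑ τ ∈ Pm.SymOn I, ∑ σ, F (σ * τ) = 0 := by
    rw [Finset.sum_comm]
    exact Finset.sum_eq_zero fun σ _ => h1 σ
  have h3 : ∀ τ ∈ Pm.SymOn I, ∑ σ, F (σ * τ) = ∑ σ, F σ := fun τ _ =>
    Equiv.sum_comp (Equiv.mulRight τ) F
  rw [Finset.sum_congr rfl h3, Finset.sum_const, ← Nat.cast_smul_eq_nsmul ℚ] at h2
  refine (smul_eq_zero.1 h2).resolve_left (Nat.cast_ne_zero.2 ?_)
  have h4 : (1 : Equiv.Perm (Fin n)) ∈ Pm.SymOn I := Pm.mem_symOn.2 fun _ _ => rfl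
  exact Finset.card_ne_zero_of_mem h4

/-- The core theorem with the determinant on the product. -/
lemma core' {p : C.A (S.prod S)} {n m b : ℕ} (hb : b = n + m) (hmn : m < n)
    {pr : Fin b → (P ⟶ S)} (hP : IsPow pr) (hd : P.dim = 2 * b) (hs : tp C p = p)
    (hpp : C.comp p p = p) (hr : HasDegree C (C.up (Obj.lift (𝟙 S) (𝟙 S)) p) b) {D : C.A P}
    (hD : C.Deg b D) {c : ℚ} (hc : c ≠ 0)
    (hdet : C.mul (C.up (fst P P) D) (C.up (snd P P) D) = c • detProd C p pr)
    (a : Fin n → C.A S) (ha2 : ∀ j, a j ∈ C.gr S 2) (ha : ∀ j, C.act p (a j) = a j)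
    (y : Fin n → (W ⟶ S)) :
    ∑ σ : Equiv.Perm (Fin n), (Equiv.Perm.sign σ : ℤ) • ∏ j, C.pull (y (σ j)) (a j) = 0 := by
  subst hb
  refine core hmn hP hd hs hpp hr hD hc (fun V g h => ?_) a ha2 ha y
  have h1 := congrArg (C.pull (Obj.lift g h)) hdet
  have h2 : C.pull (Obj.lift g h) (C.mul (C.up (fst P P) D) (C.up (snd P P) D)) =
      C.pull g D * C.pull h D := by
    refine (map_mul (C.pull (Obj.lift g h)) _ _).trans ?_
    rw [← C.pull_comp, ← C.pull_comp, lift_fst, lift_snd]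
  rw [h2, map_smul] at h1
  rw [h1, detProd, map_sum, dt, gr, gd]
  congr 1
  refine Finset.sum_congr rfl fun σ _ => ?_
  rw [map_zsmul, List.prod_ofFn, map_prod]
  have h3 : wt true σ = (Equiv.Perm.sign σ : ℤ) := by rw [wt, if_pos rfl]
  rw [h3]
  congr 1
  refine Finset.prod_congr rfl fun i _ => ?_
  rw [← C.pull_comp, comp_lift, ← Category.assoc, ← Category.assoc, lift_fst, lift_snd]
  rfl

/-- The classes on a piece. -/
def InPiece (M : FinitePiece C S) (c : C.A S) : Prop := c ∈ C.gr S 2 ∧ C.act M.p c = c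

/-- More than `b / 2` classes on a piece of rank `b`. -/
lemma piece_zero (M : FinitePiece C S) {n : ℕ} (I : Finset (Fin n)) (hI : I.card = M.b / 2 + 1)
    (q : Fin n → (W ⟶ S)) (c : Fin n → C.A S) (hc : ∀ i ∈ I, InPiece M (c i)) :
    altProd C q c = 0 := by
  classical
  refine alt_subset I q c fun x => ?_
  obtain ⟨t, ht, hdet⟩ := M.det
  have e : Fin (M.b / 2 + 1) ≃ {i // i ∈ I} := (Fintype.equivFinOfCardEq (by simp [hI])).symm
  have hpos := M.pos
  have h1 := core' (W := W) (n := M.b / 2 + 1) (m := M.b - (M.b / 2 + 1)) (b := M.b) (by omega)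
    (by omega) M.isPow M.dim_eq M.symm M.idem M.rank M.deg_D ht hdet (fun j => c (e j))
    (fun j => (hc _ (e j).2).1) (fun j => (hc _ (e j).2).2) (fun j => x (e j))
  rw [← h1]
  refine (Fintype.sum_equiv (Equiv.permCongr e) _ _ fun σ => ?_).symm
  rw [Equiv.Perm.sign_permCongr]
  congr 1
  refine Fintype.prod_equiv e _ _ fun j => ?_
  rw [Equiv.permCongr_apply, Equiv.symm_apply_apply]

theorem main (hS : S.dim = 2) {r : ℕ} (M : Fin r → FinitePiece C S) (hM : IsSumOfPieces C M)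
    {n : ℕ} (hn : ∑ i, (M i).b / 2 < n) (q : Fin n → (W ⟶ S)) (a : Fin n → C.A S)
    (ha : ∀ j, InAlbKer C (a j)) : altProd C q a = 0 := by
  classical
  obtain ⟨f, hf⟩ := exists_multi (C := C) q
  rw [← hf]
  refine multi_span f {c | ∃ i, InPiece (M i) c} (fun c hc => ?_) a fun j => ?_
  · rw [hf]
    choose t ht using hc
    have h1 : ∃ i ∈ Finset.univ, (M i).b / 2 < (Finset.univ.filter fun j => t j = i).card := by
      apply Finset.exists_lt_of_sum_lt
      have h2 := Finset.card_eq_sum_card_fiberwise (s := (Finset.univ : Finset (Fin n)))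
        (t := (Finset.univ : Finset (Fin r))) (f := t)
        (fun _ _ => Finset.mem_coe.2 (Finset.mem_univ _))
      rw [← h2, Finset.card_univ, Fintype.card_fin]
      exact hn
    obtain ⟨i, -, hi⟩ := h1
    obtain ⟨I, hI1, hI2⟩ := Finset.exists_subset_card_eq hi
    refine piece_zero (M i) I hI2 q c fun j hj => ?_
    have h2 := (Finset.mem_filter.1 (hI1 hj)).2
    have h3 := ht j
    rw [h2] at h3
    exact h3
  · have h1 := hM (a j) (ha j)
    rw [h1]
    refine Submodule.sum_mem _ fun i _ => Submodule.subset_span ⟨i, ?_, ?_⟩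
    · have h2 := (ha j).deg
      rw [hS] at h2
      have h3 : (M i).p ∈ C.gr (S.prod S) S.dim := gr_cast (by rw [hS]; norm_num) (M i).deg_p
      have h4 := act_mem0 C h3 h2
      exact gr_cast (by norm_num) h4
    · rw [← C.act_comp, (M i).idem]

end Pool.Agent.Y152.VR
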